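import Pool.Agent.X328.GN.Stm

/-!
# Reduction of the roots of `Ph` modulo the maximal ideal of a valuation ring
-/

set_option autoImplicit false

namespace Pool.Agent.X319.GN

open Finset Polynomial IsLocalRing
open Pool.Agent.X328.GN (Ix nu de hm it P3 Q3 Ph wrA ml)

universe u v

noncomputable section

/-! ### functoriality -/

section

variable {A : Type u} {B : Type v} [CommRing A] [CommRing B] (φ : A →+* B)

lemma nu_map (d : ℕ) (t : Ix d → A) : (nu d t).map φ = nu d (fun i => φ (t i)) := by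
  simp [nu, Polynomial.map_sum]

lemma de_map (d : ℕ) (t : Ix d → A) : (de d t).map φ = de d (fun i => φ (t i)) := by
  simp [de, Polynomial.map_sum]

lemma hm_map (d : ℕ) (F P Q : A[X]) :
    (hm d F P Q).map φ = hm d (F.map φ) (P.map φ) (Q.map φ) := by
  simp [hm, Polynomial.map_sum]

lemma it_map (d : ℕ) (u w : A[X]) (n : ℕ) :
    (it d u w n).1.map φ = (it d (u.map φ) (w.map φ) n).1 ∧
      (it d u w n).2.map φ = (it d (u.map φ) (w.map φ) n).2 := by
  induction n with
  | zero => simp [it]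
  | succ n ih =>
    simp only [it]
    rw [hm_map, hm_map, ih.1, ih.2]
    exact ⟨rfl, rfl⟩

lemma P3_map (d : ℕ) (t : Ix d → A) : (P3 d t).map φ = P3 d (fun i => φ (t i)) := by
  rw [P3, P3, (it_map φ d _ _ 3).1, nu_map, de_map]

lemma Q3_map (d : ℕ) (t : Ix d → A) : (Q3 d t).map φ = Q3 d (fun i => φ (t i)) := by
  rw [Q3, Q3, (it_map φ d _ _ 3).2, nu_map, de_map]

lemma Ph_map (d : ℕ) (t : Ix d → A) : (Ph d t).map φ = Ph d (fun i => φ (t i)) := by
  rw [Ph, Ph, Polynomial.map_sub, Polynomial.map_mul, P3_map, Q3_map, map_X]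

lemma wrA_map (p q : A[X]) : (wrA p q).map φ = wrA (p.map φ) (q.map φ) := by
  simp [wrA, derivative_map]

lemma nu_zero (d : ℕ) : nu d (fun _ => (0 : A)) = X ^ d := by simp [nu]

lemma de_zero (d : ℕ) : de d (fun _ => (0 : A)) = 1 := by simp [de]

lemma hm_X_pow (d : ℕ) (P Q : A[X]) : hm d (X ^ d) P Q = P ^ d := by
  rw [hm, Finset.sum_eq_single d]
  · simp
  · intro i _ hi
    rw [coeff_X_pow, if_neg hi]
    simp
  · intro h; simp at h

lemma hm_one (d : ℕ) (P Q : A[X]) : hm d 1 P Q = Q ^ d := by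
  rw [hm, Finset.sum_eq_single 0]
  · simp
  · intro i _ hi
    rw [coeff_one, if_neg hi]
    simp
  · intro h; simp at h

lemma it_zero (d : ℕ) (n : ℕ) : it d (X ^ d) (1 : A[X]) n = (X ^ d ^ n, 1) := by
  induction n with
  | zero => simp [it]
  | succ n ih =>
    simp only [it, ih]
    rw [hm_X_pow, hm_one, ← pow_mul, ← pow_succ, one_pow]

lemma P3_zero (d : ℕ) : P3 d (fun _ => (0 : A)) = X ^ d ^ 3 := by
  rw [P3, nu_zero, de_zero, it_zero]

lemma Q3_zero (d : ℕ) : Q3 d (fun _ => (0 : A)) = 1 := by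
  rw [Q3, nu_zero, de_zero, it_zero]

lemma Ph_zero (d : ℕ) : Ph d (fun _ => (0 : A)) = X ^ d ^ 3 - X := by
  rw [Ph, P3_zero, Q3_zero, mul_one]

/-! ### degrees -/

lemma sum_natDegree_le (d : ℕ) (s : Fin (d - 1) → A) :
    (∑ i : Fin (d - 1), C (s i) * X ^ (i.1 + 1)).natDegree ≤ d - 1 := by
  refine natDegree_sum_le_of_forall_le _ _ ?_
  intro i _
  refine (natDegree_C_mul_X_pow_le _ _).trans ?_
  have := i.2; omega

lemma nu_monic [Nontrivial A] (d : ℕ) (hd : 2 ≤ d) (t : Ix d → A) :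
    (nu d t).Monic ∧ (nu d t).natDegree = d := by
  have h1 := sum_natDegree_le d (fun i => t (Sum.inl i))
  have h2 : (∑ i : Fin (d - 1), C (t (Sum.inl i)) * X ^ (i.1 + 1) : A[X]).degree < (d : ℕ) :=
    lt_of_le_of_lt degree_le_natDegree (by
      have h3 : (∑ i : Fin (d - 1), C (t (Sum.inl i)) * X ^ (i.1 + 1) : A[X]).natDegree < d := by
        omega
      exact_mod_cast h3)
  refine ⟨monic_X_pow_add h2, ?_⟩
  rw [nu, natDegree_add_eq_left_of_degree_lt, natDegree_X_pow]
  rwa [degree_X_pow]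

lemma de_natDegree (d : ℕ) (hd : 2 ≤ d) (t : Ix d → A) : (de d t).natDegree < d := by
  have h1 := sum_natDegree_le d (fun i => t (Sum.inr i))
  have h2 : (de d t).natDegree ≤ d - 1 := by
    rw [de]
    refine (natDegree_add_le _ _).trans (max_le ?_ h1)
    rw [natDegree_C]; omega
  omega

end

/-! ### the valuation ring -/

variable {E : Type u} [Field E] (O : ValuationSubring E)

/-- `e ∈ O` has residue `r` -/
def Rd (e : E) (r : ResidueField O) : Prop := ∃ a : O, (a : E) = e ∧ residue O a = r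

/-- `p ∈ O[X]` has residue `q` -/
def RdP (p : E[X]) (q : (ResidueField O)[X]) : Prop :=
  ∃ a : O[X], a.map (algebraMap O E) = p ∧ a.map (residue O) = q

variable {O}

lemma Rd.mem {e : E} {r} (h : Rd O e r) : e ∈ O := by
  obtain ⟨a, ha, _⟩ := h; rw [← ha]; exact a.2

lemma Rd.add {e e' : E} {r r'} (h : Rd O e r) (h' : Rd O e' r') : Rd O (e + e') (r + r') := by
  obtain ⟨a, rfl, rfl⟩ := h; obtain ⟨b, rfl, rfl⟩ := h'
  exact ⟨a + b, by simp, by simp⟩

lemma Rd.sub {e e' : E} {r r'} (h : Rd O e r) (h' : Rd O e' r') : Rd O (e - e') (r - r') := by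
  obtain ⟨a, rfl, rfl⟩ := h; obtain ⟨b, rfl, rfl⟩ := h'
  exact ⟨a - b, by simp, by simp⟩

lemma Rd.mul {e e' : E} {r r'} (h : Rd O e r) (h' : Rd O e' r') : Rd O (e * e') (r * r') := by
  obtain ⟨a, rfl, rfl⟩ := h; obtain ⟨b, rfl, rfl⟩ := h'
  exact ⟨a * b, by simp, by simp⟩

lemma Rd.pow {e : E} {r} (h : Rd O e r) (n : ℕ) : Rd O (e ^ n) (r ^ n) := by
  obtain ⟨a, rfl, rfl⟩ := h
  exact ⟨a ^ n, by simp, by simp⟩

lemma Rd.natCast (n : ℕ) : Rd O (n : E) (n : ResidueField O) := ⟨n, by simp, by simp⟩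

lemma Rd.zero : Rd O (0 : E) 0 := ⟨0, by simp, by simp⟩

lemma Rd.one : Rd O (1 : E) 1 := ⟨1, by simp, by simp⟩

lemma Rd.inv {e : E} {r} (h : Rd O e r) (hr : r ≠ 0) : Rd O e⁻¹ r⁻¹ := by
  obtain ⟨a, rfl, rfl⟩ := h
  obtain ⟨b, hb⟩ := ((residue_ne_zero_iff_isUnit a).1 hr).exists_right_inv
  refine ⟨b, ?_, ?_⟩
  · refine eq_inv_of_mul_eq_one_right ?_
    have : ((a * b : O) : E) = ((1 : O) : E) := by rw [hb]
    simpa using this
  · refine eq_inv_of_mul_eq_one_right ?_
    rw [← map_mul, hb, map_one]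

lemma Rd.div {e e' : E} {r r'} (h : Rd O e r) (h' : Rd O e' r') (hr : r' ≠ 0) :
    Rd O (e / e') (r / r') := by
  rw [div_eq_mul_inv, div_eq_mul_inv]; exact h.mul (h'.inv hr)

lemma Rd.unique {e : E} {r r'} (h : Rd O e r) (h' : Rd O e r') : r = r' := by
  obtain ⟨a, ha, rfl⟩ := h; obtain ⟨b, hb, rfl⟩ := h'
  have : a = b := Subtype.ext (ha.trans hb.symm)
  rw [this]

lemma Rd.ne_zero {e : E} {r} (h : Rd O e r) (hr : r ≠ 0) : e ≠ 0 := by
  rintro rfl
  exact hr (h.unique Rd.zero)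

lemma Rd.of_mem {e : E} (h : e ∈ O) : ∃ r, Rd O e r := ⟨residue O ⟨e, h⟩, ⟨e, h⟩, rfl, rfl⟩

lemma Rd.sum {ι : Type*} (s : Finset ι) {e : ι → E} {r : ι → ResidueField O}
    (h : ∀ i ∈ s, Rd O (e i) (r i)) : Rd O (∑ i ∈ s, e i) (∑ i ∈ s, r i) := by
  classical
  induction s using Finset.induction_on with
  | empty => simpa using Rd.zero
  | insert a s ha ih =>
    rw [Finset.sum_insert ha, Finset.sum_insert ha]
    exact (h a (Finset.mem_insert_self _ _)).add
      (ih fun i hi => h i (Finset.mem_insert_of_mem hi))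

lemma Rd.prod {ι : Type*} (s : Finset ι) {e : ι → E} {r : ι → ResidueField O}
    (h : ∀ i ∈ s, Rd O (e i) (r i)) : Rd O (∏ i ∈ s, e i) (∏ i ∈ s, r i) := by
  classical
  induction s using Finset.induction_on with
  | empty => simpa using Rd.one
  | insert a s ha ih =>
    rw [Finset.prod_insert ha, Finset.prod_insert ha]
    exact (h a (Finset.mem_insert_self _ _)).mul
      (ih fun i hi => h i (Finset.mem_insert_of_mem hi))

/-- small valuation means residue zero -/
lemma Rd.of_lt {e : E} (h : O.valuation e < 1) : Rd O e 0 := by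
  have he : e ∈ O := (O.valuation_le_one_iff e).1 h.le
  refine ⟨⟨e, he⟩, rfl, ?_⟩
  rw [residue_eq_zero_iff, ValuationSubring.valuation_lt_one_iff]
  exact h

lemma RdP.eval {p : E[X]} {q : (ResidueField O)[X]} (h : RdP O p q) {x : E} {r : ResidueField O}
    (hx : Rd O x r) : Rd O (p.eval x) (q.eval r) := by
  obtain ⟨a, rfl, rfl⟩ := h
  obtain ⟨b, rfl, rfl⟩ := hx
  refine ⟨a.eval b, ?_, ?_⟩
  · have := Polynomial.eval_map_apply (f := algebraMap O E) (p := a) b
    exact this.symm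
  · have := Polynomial.eval_map_apply (f := residue O) (p := a) b
    exact this.symm

lemma RdP.derivative {p : E[X]} {q : (ResidueField O)[X]} (h : RdP O p q) :
    RdP O (derivative p) (derivative q) := by
  obtain ⟨a, rfl, rfl⟩ := h
  exact ⟨Polynomial.derivative a, by rw [derivative_map], by rw [derivative_map]⟩

lemma RdP.add {p p' : E[X]} {q q'} (h : RdP O p q) (h' : RdP O p' q') :
    RdP O (p + p') (q + q') := by
  obtain ⟨a, rfl, rfl⟩ := h; obtain ⟨b, rfl, rfl⟩ := h'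
  exact ⟨a + b, by simp, by simp⟩

lemma RdP.sub {p p' : E[X]} {q q'} (h : RdP O p q) (h' : RdP O p' q') :
    RdP O (p - p') (q - q') := by
  obtain ⟨a, rfl, rfl⟩ := h; obtain ⟨b, rfl, rfl⟩ := h'
  exact ⟨a - b, by simp, by simp⟩

lemma RdP.mul {p p' : E[X]} {q q'} (h : RdP O p q) (h' : RdP O p' q') :
    RdP O (p * p') (q * q') := by
  obtain ⟨a, rfl, rfl⟩ := h; obtain ⟨b, rfl, rfl⟩ := h'
  exact ⟨a * b, by simp, by simp⟩

lemma RdP.X_pow (n : ℕ) : RdP O (X ^ n) (X ^ n) := ⟨X ^ n, by simp, by simp⟩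

lemma RdP.C {e : E} {r} (h : Rd O e r) : RdP O (C e) (C r) := by
  obtain ⟨a, rfl, rfl⟩ := h
  exact ⟨Polynomial.C a, by simp, by simp⟩

lemma RdP.sum {ι : Type*} (s : Finset ι) {e : ι → E[X]} {r : ι → (ResidueField O)[X]}
    (h : ∀ i ∈ s, RdP O (e i) (r i)) : RdP O (∑ i ∈ s, e i) (∑ i ∈ s, r i) := by
  classical
  induction s using Finset.induction_on with
  | empty => exact ⟨0, by simp, by simp⟩
  | insert a s ha ih =>
    rw [Finset.sum_insert ha, Finset.sum_insert ha]
    exact (h a (Finset.mem_insert_self _ _)).add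
      (ih fun i hi => h i (Finset.mem_insert_of_mem hi))

lemma RdP.wrA {p p' : E[X]} {q q'} (h : RdP O p q) (h' : RdP O p' q') :
    RdP O (wrA p p') (wrA q q') := (h.derivative.mul h').sub (h.mul h'.derivative)

section lift

variable {d : ℕ} {t : Ix d → E}

/-- lift of the parameters -/
lemma exists_lift (ht : ∀ i, O.valuation (t i) < 1) :
    ∃ s : Ix d → O, (fun i => algebraMap O E (s i)) = t ∧ (fun i => residue O (s i)) = fun _ => 0 := by
  choose s hs hs' using fun i => Rd.of_lt (ht i)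
  exact ⟨s, funext hs, funext hs'⟩

lemma nu_RdP (ht : ∀ i, O.valuation (t i) < 1) : RdP O (nu d t) (X ^ d) := by
  obtain ⟨s, hs, hs'⟩ := exists_lift ht
  exact ⟨nu d s, by rw [nu_map, hs], by rw [nu_map, hs', nu_zero]⟩

lemma de_RdP (ht : ∀ i, O.valuation (t i) < 1) : RdP O (de d t) 1 := by
  obtain ⟨s, hs, hs'⟩ := exists_lift ht
  exact ⟨de d s, by rw [de_map, hs], by rw [de_map, hs', de_zero]⟩

lemma P3_RdP (ht : ∀ i, O.valuation (t i) < 1) : RdP O (P3 d t) (X ^ d ^ 3) := by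
  obtain ⟨s, hs, hs'⟩ := exists_lift ht
  exact ⟨P3 d s, by rw [P3_map, hs], by rw [P3_map, hs', P3_zero]⟩

lemma Q3_RdP (ht : ∀ i, O.valuation (t i) < 1) : RdP O (Q3 d t) 1 := by
  obtain ⟨s, hs, hs'⟩ := exists_lift ht
  exact ⟨Q3 d s, by rw [Q3_map, hs], by rw [Q3_map, hs', Q3_zero]⟩

/-- coprimality of numerator and denominator -/
lemma coprime (hd : 2 ≤ d) (ht : ∀ i, O.valuation (t i) < 1) : IsCoprime (nu d t) (de d t) := by
  obtain ⟨s, hs, hs'⟩ := exists_lift ht
  have hnuM := (nu_monic d hd t)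
  refine isCoprime_of_irreducible_dvd (fun h => hnuM.1.ne_zero h.1) ?_
  intro z hz h1 h2
  have hz0 : z ≠ 0 := hz.ne_zero
  have hsM := (nu_monic d hd s).1
  have hnu : (nu d s).map (algebraMap O E) = nu d t := by rw [nu_map, hs]
  have hde : (de d s).map (algebraMap O E) = de d t := by rw [de_map, hs]
  obtain ⟨g, hg⟩ := IsIntegrallyClosed.eq_map_mul_C_of_dvd E hsM (g := z) (by rw [hnu]; exact h1)
  have hlc : z.leadingCoeff ≠ 0 := leadingCoeff_ne_zero.2 hz0
  have hinj : Function.Injective (algebraMap O E) := IsFractionRing.injective O E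
  have hgm' : (g.map (algebraMap O E)).Monic := by
    have h3 : (g.map (algebraMap O E)) * C z.leadingCoeff = z := hg
    have h4 := congrArg leadingCoeff h3
    rw [leadingCoeff_mul, leadingCoeff_C] at h4
    exact mul_right_cancel₀ hlc (by rw [h4, one_mul])
  have hgm : g.Monic := Polynomial.monic_of_injective hinj hgm'
  have hdvd : g.map (algebraMap O E) ∣ (de d s).map (algebraMap O E) := by
    rw [hde]
    exact (dvd_of_mul_right_eq _ hg).trans h2
  rw [map_dvd_map _ hinj hgm] at hdvd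
  have h5 := Polynomial.map_dvd (residue O) hdvd
  rw [de_map, hs', de_zero] at h5
  have h6 : (g.map (residue O)).natDegree = 0 := natDegree_eq_zero_of_isUnit (isUnit_of_dvd_one h5)
  rw [hgm.natDegree_map] at h6
  have h7 : g = 1 := hgm.natDegree_eq_zero.1 h6
  rw [h7, Polynomial.map_one, one_mul] at hg
  apply hz.not_isUnit
  rw [← hg]
  exact isUnit_C.2 (isUnit_iff_ne_zero.2 hlc)

/-- **the reduction of the roots of `Ph`** -/
theorem red (hIT : Pool.Agent.X328.GN.S_IT.{u}) (hd : 2 ≤ d)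
    (ht : ∀ i, O.valuation (t i) < 1) (hsp : (Ph d t).Splits) :
    (X ^ (d ^ 3) - X : (ResidueField O)[X]).Splits ∧
      ∀ ζ : ResidueField O, ζ ^ d ^ 3 = ζ → ∃ x : E, (Ph d t).eval x = 0 ∧ Rd O x ζ := by
  obtain ⟨s, hs, hs'⟩ := exists_lift ht
  have hinj : Function.Injective (algebraMap O E) := IsFractionRing.injective O E
  obtain ⟨-, hPm, hPd, hQd, -⟩ := hIT E d hd (nu d t) (de d t) (coprime hd ht) (nu_monic d hd t).1
    (nu_monic d hd t).2 (de_natDegree d hd t) 3
  change (P3 d t).Monic at hPm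
  change (P3 d t).natDegree = d ^ 3 at hPd
  change (Q3 d t).natDegree < d ^ 3 at hQd
  have hPh : (Ph d s).map (algebraMap O E) = Ph d t := by rw [Ph_map, hs]
  have hPh' : (Ph d s).map (residue O) = X ^ d ^ 3 - X := by rw [Ph_map, hs', Ph_zero]
  have hd1 : 1 < d ^ 3 := Nat.one_lt_pow (by norm_num) (by omega)
  -- degree
  have hdeg : (Ph d s).natDegree ≤ d ^ 3 := by
    rw [← natDegree_map_eq_of_injective hinj, hPh, Ph]
    refine (natDegree_sub_le _ _).trans (max_le hPd.le ?_)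
    refine natDegree_mul_le.trans ?_
    rw [natDegree_X]; omega
  have hcoef : residue O ((Ph d s).coeff (d ^ 3)) = 1 := by
    rw [← coeff_map, hPh', coeff_sub, coeff_X_pow_self, coeff_X, if_neg (by omega), sub_zero]
  have hunit : IsUnit ((Ph d s).coeff (d ^ 3)) := by
    rw [← residue_ne_zero_iff_isUnit, hcoef]; exact one_ne_zero
  -- roots are in `O`
  have hroots : ∀ a ∈ ((Ph d s).map (algebraMap O E)).roots, a ∈ (algebraMap O E).range := by
    intro a ha
    have ha' := (mem_roots'.1 ha).2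
    obtain ⟨c, hc⟩ := hunit.exists_left_inv
    have hmon : (C c * Ph d s).Monic := by
      refine monic_of_natDegree_le_of_coeff_eq_one (d ^ 3) ?_ ?_
      · exact (natDegree_C_mul_le _ _).trans hdeg
      · rw [coeff_C_mul, hc]
    have hint : IsIntegral O a := by
      refine ⟨C c * Ph d s, hmon, ?_⟩
      rw [eval₂_mul, ← eval_map (f := algebraMap O E) (p := Ph d s), ha'.eq_zero, mul_zero]
    obtain ⟨y, hy⟩ := IsIntegrallyClosed.algebraMap_eq_of_integral hint
    exact ⟨y, hy⟩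
  have hO : (Ph d s).Splits :=
    Splits.of_splits_map_of_injective hinj (by rw [hPh]; exact hsp) hroots
  have hF : (X ^ (d ^ 3) - X : (ResidueField O)[X]).Splits := by
    rw [← hPh']; exact hO.map _
  refine ⟨hF, ?_⟩
  intro ζ hζ
  have hne : (Ph d s).map (residue O) ≠ 0 := by
    intro h
    have h1 := congrArg (fun p : (ResidueField O)[X] => p.coeff (d ^ 3)) h
    simp only [coeff_map, hcoef, coeff_zero] at h1
    exact one_ne_zero h1
  have hr := hO.roots_map_of_ne_zero hne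
  have hz : ζ ∈ ((Ph d s).map (residue O)).roots := by
    rw [mem_roots hne, IsRoot.def, hPh', eval_sub, eval_pow, eval_X, hζ, sub_self]
  rw [hr, Multiset.mem_map] at hz
  obtain ⟨b, hb, hb'⟩ := hz
  refine ⟨algebraMap O E b, ?_, b, rfl, hb'⟩
  have hb2 := (mem_roots'.1 hb).2
  rw [← hPh, eval_map_apply, hb2.eq_zero, map_zero]

end lift

end

end Pool.Agent.X319.GN
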