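import Pool.Agent.X328.GN.Stm2
import Pool.Agent.X319.GN.RED

/-!
# `S_NORM`: the normal form with fixed points `0`, `1`, `∞`
-/

set_option autoImplicit false

namespace Pool.Agent.X319.GN

open Finset Polynomial
open Pool.Agent.X328.GN (Ix nu de hm it P3 Q3 Ph wrA ml u0 w0 kap)
open Pool.Agent.Results.MP_9b502d_nt.LargeCriticalHeight (Conjugate)

universe u v

noncomputable section

variable {K : Type u} [Field K]

/-- homogenization evaluated: `D ^ d F (N / D)` -/
lemma hm_eval (d : ℕ) {F : K[X]} (hF : F.natDegree ≤ d) (P Q : K[X]) (v : K) (hQ : Q.eval v ≠ 0) :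
    (hm d F P Q).eval v = Q.eval v ^ d * F.eval (P.eval v / Q.eval v) := by
  rw [eval_eq_sum_range' (p := F) (n := d + 1) (by omega), hm, eval_finsetSum, Finset.mul_sum]
  refine Finset.sum_congr rfl fun i hi => ?_
  have hi' : i ≤ d := by have := Finset.mem_range.1 hi; omega
  simp only [eval_mul, eval_C, eval_pow]
  have h1 : Q.eval v ^ d = Q.eval v ^ (d - i) * Q.eval v ^ i := by
    rw [← pow_add, Nat.sub_add_cancel hi']
  rw [h1, div_pow]
  field_simp

/-- at a zero of the denominator -/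
lemma hm_eval_zero (d : ℕ) (F : K[X]) (P Q : K[X]) (v : K) (hQ : Q.eval v = 0) :
    (hm d F P Q).eval v = F.coeff d * P.eval v ^ d := by
  rw [hm, eval_finsetSum, Finset.sum_eq_single d]
  · simp
  · intro i hi hid
    have hi' : i < d := by have := Finset.mem_range.1 hi; omega
    simp only [eval_mul, eval_C, eval_pow, hQ]
    rw [zero_pow (by omega), mul_zero]
  · intro h; simp at h

lemma hm_natDegree (d : ℕ) (F P Q : K[X]) (hP : P.natDegree ≤ 1) (hQ : Q.natDegree ≤ 1) :
    (hm d F P Q).natDegree ≤ d := by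
  refine natDegree_sum_le_of_forall_le _ _ ?_
  intro i hi
  have hi' : i ≤ d := by have := Finset.mem_range.1 hi; omega
  refine natDegree_mul_le.trans ?_
  have h1 := natDegree_pow_le_of_le i hP
  have h2 := natDegree_pow_le_of_le (d - i) hQ
  have h3 : (C (F.coeff i) * P ^ i).natDegree ≤ (P ^ i).natDegree := natDegree_C_mul_le _ _
  omega

lemma hm_coeff (d : ℕ) {F : K[X]} (hF : F.natDegree ≤ d) (P Q : K[X]) (hP : P.natDegree ≤ 1)
    (hQ : Q.natDegree ≤ 1) (hQ1 : Q.coeff 1 = 1) : (hm d F P Q).coeff d = F.eval (P.coeff 1) := by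
  rw [eval_eq_sum_range' (p := F) (n := d + 1) (by omega), hm, finsetSum_coeff]
  refine Finset.sum_congr rfl fun i hi => ?_
  have hi' : i ≤ d := by have := Finset.mem_range.1 hi; omega
  rw [mul_assoc, coeff_C_mul]
  congr 1
  have h1 := natDegree_pow_le_of_le i hP
  have h2 := natDegree_pow_le_of_le (d - i) hQ
  rw [mul_one] at h1 h2
  have h3 := coeff_pow_of_natDegree_le (m := i) hP
  have h4 := coeff_pow_of_natDegree_le (m := d - i) hQ
  rw [mul_one] at h3 h4
  have h5 : (P ^ i * Q ^ (d - i)).coeff (i + (d - i)) = (P ^ i).coeff i * (Q ^ (d - i)).coeff (d - i) :=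
    coeff_mul_add_eq_of_natDegree_le h1 h2
  rw [Nat.add_sub_cancel' hi', h3, h4, hQ1, one_pow, mul_one] at h5
  exact h5

section main

variable (d : ℕ) (p q : K[X]) (x y z : K)

/-- the constant `μ` -/
abbrev mu (x y z : K) : K := (y - z) / (y - x)

/-- `A` -/
abbrev AA (x y z : K) : K[X] := C z * X - C ((y - z) / (y - x) * x)

/-- `B` -/
abbrev BB (x y z : K) : K[X] := X - C ((y - z) / (y - x))

lemma AA_deg : (AA x y z).natDegree ≤ 1 := by
  refine (natDegree_sub_le _ _).trans (max_le ?_ ?_)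
  · exact (natDegree_C_mul_le _ _).trans (by rw [natDegree_X])
  · rw [natDegree_C]; omega

lemma BB_deg : (BB x y z).natDegree ≤ 1 := by rw [natDegree_X_sub_C]

lemma AA_coeff : (AA x y z).coeff 1 = z := by simp [coeff_C]

lemma BB_coeff : (BB x y z).coeff 1 = 1 := by simp [coeff_C]

lemma ne_all {x y z : K} (hxy : x ≠ y) (hyz : y ≠ z) (hxz : x ≠ z) :
    y - x ≠ 0 ∧ y - z ≠ 0 ∧ z - x ≠ 0 ∧ (y - z) / (y - x) ≠ 0 := by
  have h1 : y - x ≠ 0 := sub_ne_zero.2 hxy.symm
  have h2 : y - z ≠ 0 := sub_ne_zero.2 hyz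
  exact ⟨h1, h2, sub_ne_zero.2 hxz.symm, div_ne_zero h2 h1⟩

variable {d p q x y z}

lemma q_ne (hc : IsCoprime p q) (hz : p.eval z = z * q.eval z) : q.eval z ≠ 0 := by
  intro h
  rw [h, mul_zero] at hz
  obtain ⟨a, b, hab⟩ := hc
  have := congrArg (eval z) hab
  rw [eval_add, eval_mul, eval_mul, h, hz, mul_zero, mul_zero, add_zero, eval_one] at this
  exact zero_ne_one this

/-- the value `ℓ` -/
abbrev ll (q : K[X]) (x y z : K) : K := (y - z) / (y - x) * (z - x) * q.eval z

lemma u0_natDegree : (u0 d p q x y z).natDegree ≤ d := by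
  rw [u0]
  refine (natDegree_C_mul_le _ _).trans ((natDegree_sub_le _ _).trans (max_le ?_ ?_))
  · exact hm_natDegree d p _ _ (AA_deg x y z) (BB_deg x y z)
  · exact (natDegree_C_mul_le _ _).trans (hm_natDegree d q _ _ (AA_deg x y z) (BB_deg x y z))

lemma w0_natDegree : (w0 d p q x y z).natDegree ≤ d := by
  rw [w0]
  refine (natDegree_sub_le _ _).trans (max_le ?_ ?_)
  · exact hm_natDegree d p _ _ (AA_deg x y z) (BB_deg x y z)
  · exact (natDegree_C_mul_le _ _).trans (hm_natDegree d q _ _ (AA_deg x y z) (BB_deg x y z))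

lemma u0_lead (hp : p.natDegree ≤ d) (hq : q.natDegree ≤ d) (hz : p.eval z = z * q.eval z) :
    (u0 d p q x y z).coeff d = ll q x y z := by
  rw [u0, coeff_C_mul, coeff_sub, coeff_C_mul,
    hm_coeff d hp _ _ (AA_deg x y z) (BB_deg x y z) (BB_coeff x y z),
    hm_coeff d hq _ _ (AA_deg x y z) (BB_deg x y z) (BB_coeff x y z), AA_coeff, hz]
  ring

lemma w0_lead (hp : p.natDegree ≤ d) (hq : q.natDegree ≤ d) (hz : p.eval z = z * q.eval z) :
    (w0 d p q x y z).coeff d = 0 := by
  rw [w0, coeff_sub, coeff_C_mul,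
    hm_coeff d hp _ _ (AA_deg x y z) (BB_deg x y z) (BB_coeff x y z),
    hm_coeff d hq _ _ (AA_deg x y z) (BB_deg x y z) (BB_coeff x y z), AA_coeff, hz, sub_self]

lemma u0_zero (hp : p.natDegree ≤ d) (hq : q.natDegree ≤ d) (hmu : (y - z) / (y - x) ≠ 0)
    (hx : p.eval x = x * q.eval x) : (u0 d p q x y z).coeff 0 = 0 := by
  have hB : (BB x y z).eval 0 ≠ 0 := by simpa using hmu
  have hAB : (AA x y z).eval 0 / (BB x y z).eval 0 = x := by
    rw [div_eq_iff hB]
    simp only [eval_sub, eval_mul, eval_X, eval_C]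
    ring
  rw [coeff_zero_eq_eval_zero, u0, eval_mul, eval_C, eval_sub, eval_mul, eval_C,
    hm_eval d hp _ _ _ hB, hm_eval d hq _ _ _ hB, hAB, hx]
  ring

lemma u0_one (hp : p.natDegree ≤ d) (hq : q.natDegree ≤ d) (hxy : x ≠ y) (hyz : y ≠ z)
    (hxz : x ≠ z) (hy : p.eval y = y * q.eval y) :
    (u0 d p q x y z).eval 1 = (w0 d p q x y z).eval 1 := by
  obtain ⟨h1, h2, h3, h4⟩ := ne_all hxy hyz hxz
  have hB1 : (BB x y z).eval 1 = (z - x) / (y - x) := by
    simp only [eval_sub, eval_X, eval_C]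
    field_simp; ring
  have hB : (BB x y z).eval 1 ≠ 0 := by rw [hB1]; exact div_ne_zero h3 h1
  have hAB : (AA x y z).eval 1 / (BB x y z).eval 1 = y := by
    rw [div_eq_iff hB, hB1]
    simp only [eval_sub, eval_mul, eval_X, eval_C]
    field_simp; ring
  rw [u0, w0, eval_mul, eval_C, eval_sub, eval_mul, eval_C, eval_sub, eval_mul, eval_C,
    hm_eval d hp _ _ _ hB, hm_eval d hq _ _ _ hB, hAB, hy]
  field_simp

/-- a polynomial of degree at most `d`, written out -/
lemma expand (hd : 2 ≤ d) {F : K[X]} (hF : F.natDegree ≤ d) :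
    F = C (F.coeff 0) + (∑ i : Fin (d - 1), C (F.coeff (i.1 + 1)) * X ^ (i.1 + 1)) +
      C (F.coeff d) * X ^ d := by
  conv_lhs => rw [F.as_sum_range' (d + 1) (by omega)]
  obtain ⟨e, rfl⟩ : ∃ e, d = e + 1 := ⟨d - 1, by omega⟩
  rw [Finset.sum_range_succ, Finset.sum_range_succ', ← C_mul_X_pow_eq_monomial,
    ← C_mul_X_pow_eq_monomial, pow_zero, mul_one, Nat.add_sub_cancel,
    Fin.sum_univ_eq_sum_range (fun i => C (F.coeff (i + 1)) * X ^ (i + 1)) e]
  simp only [← C_mul_X_pow_eq_monomial]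
  ring

lemma nu_gen (hd : 2 ≤ d) (U : K[X]) (l : K) (hl : l ≠ 0) (hdeg : U.natDegree ≤ d)
    (h0 : U.coeff 0 = 0) (h1 : U.coeff d = l) :
    C l * (X ^ d + ∑ i : Fin (d - 1), C (U.coeff (i.1 + 1) / l) * X ^ (i.1 + 1)) = U := by
  have h := expand hd hdeg
  rw [h0, h1, C_0, zero_add] at h
  rw [mul_add, Finset.mul_sum, add_comm]
  refine Eq.trans ?_ h.symm
  congr 1
  refine Finset.sum_congr rfl fun i _ => ?_
  rw [← mul_assoc, ← C_mul, mul_div_cancel₀ _ hl]

lemma de_gen (hd : 2 ≤ d) (U W : K[X]) (l : K) (hl : l ≠ 0) (hdeg : U.natDegree ≤ d)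
    (h0 : U.coeff 0 = 0) (h1 : U.coeff d = l) (hdegW : W.natDegree ≤ d) (hW : W.coeff d = 0)
    (hone : U.eval 1 = W.eval 1) :
    C l * (C (1 + ∑ i : Fin (d - 1), U.coeff (i.1 + 1) / l - ∑ i : Fin (d - 1),
      W.coeff (i.1 + 1) / l) + ∑ i : Fin (d - 1), C (W.coeff (i.1 + 1) / l) * X ^ (i.1 + 1)) = W := by
  have hU := congrArg (eval 1) (expand hd hdeg)
  have hWe := congrArg (eval 1) (expand hd hdegW)
  simp only [eval_add, eval_mul, eval_C, eval_pow, eval_X, one_pow, mul_one,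
    eval_finsetSum] at hU hWe
  rw [h0, h1, zero_add] at hU
  rw [hW, add_zero] at hWe
  have h := expand hd hdegW
  rw [hW, C_0, zero_mul, add_zero] at h
  rw [mul_add, Finset.mul_sum, ← C_mul]
  refine Eq.trans ?_ h.symm
  congr 1
  · congr 1
    rw [mul_sub, mul_add, mul_one, Finset.mul_sum, Finset.mul_sum]
    simp only [mul_div_cancel₀ _ hl]
    rw [hU, hWe] at hone
    linear_combination hone
  · refine Finset.sum_congr rfl fun i _ => ?_
    rw [← mul_assoc, ← C_mul, mul_div_cancel₀ _ hl]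

lemma nu_eq (hd : 2 ≤ d) (hc : IsCoprime p q) (hp : p.natDegree ≤ d) (hq : q.natDegree ≤ d)
    (hxy : x ≠ y) (hyz : y ≠ z) (hxz : x ≠ z) (hx : p.eval x = x * q.eval x)
    (hz : p.eval z = z * q.eval z) :
    C (ll q x y z) * nu d (kap d p q x y z) = u0 d p q x y z := by
  obtain ⟨h1, h2, h3, h4⟩ := ne_all hxy hyz hxz
  exact nu_gen hd _ _ (mul_ne_zero (mul_ne_zero h4 h3) (q_ne hc hz)) u0_natDegree
    (u0_zero hp hq h4 hx) (u0_lead hp hq hz)

lemma de_eq (hd : 2 ≤ d) (hc : IsCoprime p q) (hp : p.natDegree ≤ d) (hq : q.natDegree ≤ d)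
    (hxy : x ≠ y) (hyz : y ≠ z) (hxz : x ≠ z) (hx : p.eval x = x * q.eval x)
    (hy : p.eval y = y * q.eval y) (hz : p.eval z = z * q.eval z) :
    C (ll q x y z) * de d (kap d p q x y z) = w0 d p q x y z := by
  obtain ⟨h1, h2, h3, h4⟩ := ne_all hxy hyz hxz
  exact de_gen hd (u0 d p q x y z) _ _ (mul_ne_zero (mul_ne_zero h4 h3) (q_ne hc hz)) u0_natDegree
    (u0_zero hp hq h4 hx) (u0_lead hp hq hz) w0_natDegree (w0_lead hp hq hz)
    (u0_one hp hq hxy hyz hxz hy)

/-- no common zero (over the field itself) -/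
lemma no_common (hd : 2 ≤ d) (hc : IsCoprime p q) (hmax : max p.natDegree q.natDegree = d)
    (hxy : x ≠ y) (hyz : y ≠ z) (hxz : x ≠ z) (v : K) (h1 : (u0 d p q x y z).eval v = 0)
    (h2 : (w0 d p q x y z).eval v = 0) : False := by
  obtain ⟨e1, e2, e3, e4⟩ := ne_all hxy hyz hxz
  have hp : p.natDegree ≤ d := hmax ▸ le_max_left _ _
  have hq : q.natDegree ≤ d := hmax ▸ le_max_right _ _
  set P := hm d p (AA x y z) (BB x y z) with hP
  set Q := hm d q (AA x y z) (BB x y z) with hQ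
  have f1 : (u0 d p q x y z) = C ((y - z) / (y - x)) * (P - C x * Q) := rfl
  have f2 : (w0 d p q x y z) = P - C z * Q := rfl
  rw [f1, eval_mul, eval_C, eval_sub, eval_mul, eval_C, mul_eq_zero] at h1
  rw [f2, eval_sub, eval_mul, eval_C] at h2
  have h1' := h1.resolve_left e4
  have hQ0 : Q.eval v = 0 := by
    have : (z - x) * Q.eval v = 0 := by linear_combination h1' - h2
    exact (mul_eq_zero.1 this).resolve_left e3
  have hP0 : P.eval v = 0 := by rw [hQ0, mul_zero, sub_zero] at h2; exact h2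
  by_cases hB : (BB x y z).eval v = 0
  · rw [hP, hm_eval_zero d _ _ _ _ hB] at hP0
    rw [hQ, hm_eval_zero d _ _ _ _ hB] at hQ0
    have hv : v = (y - z) / (y - x) := by
      simp only [eval_sub, eval_X, eval_C] at hB
      exact sub_eq_zero.1 hB
    have hA : (AA x y z).eval v ^ d ≠ 0 := by
      apply pow_ne_zero
      simp only [eval_sub, eval_mul, eval_X, eval_C]
      rw [hv, show z * ((y - z) / (y - x)) - (y - z) / (y - x) * x = (y - z) / (y - x) * (z - x) by ring]
      exact mul_ne_zero e4 e3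
    have g1 := (mul_eq_zero.1 hP0).resolve_right hA
    have g2 := (mul_eq_zero.1 hQ0).resolve_right hA
    rcases max_choice p.natDegree q.natDegree with h | h
    · rw [h] at hmax
      have hp0 : p = 0 := by
        rw [← leadingCoeff_eq_zero, leadingCoeff, hmax, g1]
      rw [hp0, natDegree_zero] at hmax
      omega
    · rw [h] at hmax
      have hq0 : q = 0 := by
        rw [← leadingCoeff_eq_zero, leadingCoeff, hmax, g2]
      rw [hq0, natDegree_zero] at hmax
      omega
  · rw [hP, hm_eval d hp _ _ _ hB] at hP0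
    rw [hQ, hm_eval d hq _ _ _ hB] at hQ0
    have g1 := (mul_eq_zero.1 hP0).resolve_left (pow_ne_zero _ hB)
    have g2 := (mul_eq_zero.1 hQ0).resolve_left (pow_ne_zero _ hB)
    obtain ⟨a, b, hab⟩ := hc
    have := congrArg (eval ((AA x y z).eval v / (BB x y z).eval v)) hab
    rw [eval_add, eval_mul, eval_mul, g1, g2, mul_zero, mul_zero, add_zero, eval_one] at this
    exact zero_ne_one this

lemma u0_map {L : Type v} [Field L] (φ : K →+* L) :
    (u0 d p q x y z).map φ = u0 d (p.map φ) (q.map φ) (φ x) (φ y) (φ z) := by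
  rw [u0, u0, Polynomial.map_mul, Polynomial.map_sub, Polynomial.map_mul, hm_map, hm_map]
  simp

lemma w0_map {L : Type v} [Field L] (φ : K →+* L) :
    (w0 d p q x y z).map φ = w0 d (p.map φ) (q.map φ) (φ x) (φ y) (φ z) := by
  rw [w0, w0, Polynomial.map_sub, Polynomial.map_mul, hm_map, hm_map]
  simp

lemma conj_aux [CharZero K] (hxy : x ≠ y) (hyz : y ≠ z) (hxz : x ≠ z) (F : K[X])
    (hF : F.natDegree ≤ d) :
    hm d (hm d F (AA x y z) (BB x y z)) (C ((y - z) / (y - x)) * X + C (-((y - z) / (y - x) * x)))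
      (C 1 * X + C (-z)) = C (((y - z) / (y - x) * (z - x)) ^ d) * F := by
  obtain ⟨e1, e2, e3, e4⟩ := ne_all hxy hyz hxz
  refine eq_of_infinite_eval_eq _ _ (Set.Infinite.mono (s := {z}ᶜ) ?_ (Set.finite_singleton z).infinite_compl)
  intro v hv
  have hv' : v - z ≠ 0 := sub_ne_zero.2 hv
  have hD : (C 1 * X + C (-z) : K[X]).eval v = v - z := by simp; ring
  have hN : (C ((y - z) / (y - x)) * X + C (-((y - z) / (y - x) * x)) : K[X]).eval v =
      (y - z) / (y - x) * (v - x) := by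
    simp only [eval_add, eval_mul, eval_C, eval_X]; ring
  set Y := (y - z) / (y - x) * (v - x) / (v - z) with hY
  have hA : (AA x y z).eval Y = (y - z) / (y - x) * (z - x) * v / (v - z) := by
    simp only [eval_sub, eval_mul, eval_X, eval_C, hY]
    field_simp; ring
  have hB : (BB x y z).eval Y = (y - z) / (y - x) * (z - x) / (v - z) := by
    simp only [eval_sub, eval_X, eval_C, hY]
    field_simp; ring
  have hB0 : (BB x y z).eval Y ≠ 0 := by
    rw [hB]; exact div_ne_zero (mul_ne_zero e4 e3) hv'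
  have hAB : (AA x y z).eval Y / (BB x y z).eval Y = v := by
    rw [div_eq_iff hB0, hA, hB]; ring
  change eval v _ = eval v _
  rw [hm_eval d (hm_natDegree d F _ _ (AA_deg x y z) (BB_deg x y z)) _ _ v (by rw [hD]; exact hv'),
    hD, hN, ← hY, hm_eval d hF _ _ Y hB0, hAB, hB, eval_mul, eval_C, div_pow]
  field_simp

lemma hm_sub (F G P Q : K[X]) : hm d (F - G) P Q = hm d F P Q - hm d G P Q := by
  rw [hm, hm, hm, ← Finset.sum_sub_distrib]
  refine Finset.sum_congr rfl fun i _ => ?_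
  rw [coeff_sub, C_sub]; ring

lemma hm_C_mul (c : K) (F P Q : K[X]) : hm d (C c * F) P Q = C c * hm d F P Q := by
  rw [hm, hm, Finset.mul_sum]
  refine Finset.sum_congr rfl fun i _ => ?_
  rw [coeff_C_mul, C_mul]; ring

end main

theorem t_NORM : Pool.Agent.X328.GN.S_NORM.{u} := by
  intro K _ _ d hd p q hc hmax x y z hxy hyz hxz hx hy hz
  obtain ⟨e1, e2, e3, e4⟩ := ne_all hxy hyz hxz
  have hp : p.natDegree ≤ d := hmax ▸ le_max_left _ _
  have hq : q.natDegree ≤ d := hmax ▸ le_max_right _ _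
  have hl : ll q x y z ≠ 0 := mul_ne_zero (mul_ne_zero e4 e3) (q_ne hc hz)
  have hnu := nu_eq hd hc hp hq hxy hyz hxz hx hz
  have hde := de_eq hd hc hp hq hxy hyz hxz hx hy hz
  constructor
  · rw [isCoprime_iff_aeval_ne_zero_of_isAlgClosed K (AlgebraicClosure K)]
    intro v
    by_contra hcon
    push Not at hcon
    obtain ⟨g1, g2⟩ := hcon
    set φ := algebraMap K (AlgebraicClosure K) with hφ
    have hinj : Function.Injective φ := φ.injective
    refine no_common (K := AlgebraicClosure K) (d := d) (p := p.map φ) (q := q.map φ) (x := φ x)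
      (y := φ y) (z := φ z) hd (hc.map (mapRingHom φ)) ?_ (fun h => hxy (hinj h))
      (fun h => hyz (hinj h)) (fun h => hxz (hinj h)) v ?_ ?_
    · rw [natDegree_map, natDegree_map]; exact hmax
    · rw [← u0_map, ← hnu, eval_map_algebraMap, map_mul, g1, mul_zero]
    · rw [← w0_map, ← hde, eval_map_algebraMap, map_mul, g2, mul_zero]
  · refine ⟨(y - z) / (y - x), -((y - z) / (y - x) * x), 1, -z, ?_, ?_⟩
    · rw [show (y - z) / (y - x) * -z - -((y - z) / (y - x) * x) * 1 =
        -((y - z) / (y - x) * (z - x)) by ring]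
      exact neg_ne_zero.2 (mul_ne_zero e4 e3)
    · refine ⟨((y - z) / (y - x) * (z - x)) ^ d / ll q x y z,
        div_ne_zero (pow_ne_zero _ (mul_ne_zero e4 e3)) hl, ?_, ?_⟩
      · change hm d (nu d (kap d p q x y z)) _ _ = _
        have h1 : nu d (kap d p q x y z) = C (ll q x y z)⁻¹ * u0 d p q x y z := by
          rw [← hnu, ← mul_assoc, ← C_mul, inv_mul_cancel₀ hl, C_1, one_mul]
        rw [h1, hm_C_mul, u0, hm_C_mul, hm_sub, hm_C_mul,
          conj_aux hxy hyz hxz p hp, conj_aux hxy hyz hxz q hq]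
        rw [div_eq_mul_inv ((_ : K) ^ d)]
        generalize (ll q x y z)⁻¹ = m
        generalize ((y - z) / (y - x) * (z - x)) ^ d = s
        generalize (y - z) / (y - x) = a
        simp only [C_mul, C_neg]
        ring
      · change hm d (de d (kap d p q x y z)) _ _ = _
        have h1 : de d (kap d p q x y z) = C (ll q x y z)⁻¹ * w0 d p q x y z := by
          rw [← hde, ← mul_assoc, ← C_mul, inv_mul_cancel₀ hl, C_1, one_mul]
        rw [h1, hm_C_mul, w0, hm_sub, hm_C_mul,
          conj_aux hxy hyz hxz p hp, conj_aux hxy hyz hxz q hq]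
        rw [div_eq_mul_inv ((_ : K) ^ d)]
        generalize (ll q x y z)⁻¹ = m
        generalize ((y - z) / (y - x) * (z - x)) ^ d = s
        simp only [C_mul, C_neg, C_1]
        ring

end

end Pool.Agent.X319.GN
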