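import Pool.Agent.X319.GN.EXT
import Pool.Agent.X263.AL.Stm

set_option autoImplicit false

namespace Pool.Agent.X319.GN

universe u

theorem t_EXT : Pool.Agent.X263.AL.S_EXT.{u} := by
  classical
  intro R _ _ Ω _ _ hinj halg s v hv hvs
  obtain ⟨A, hA, D, hD, h⟩ := ext.{0, 0, u} hinj (insert v⁻¹ s) (fun y _ => halg y)
  refine ⟨D, hD, ?_⟩
  intro K _ _ φ hφ
  obtain ⟨ψ, hψ⟩ := h K φ hφ
  have hle : Algebra.adjoin R (s : Set Ω) ≤ A :=
    Algebra.adjoin_le fun y hy => hA y (Finset.mem_insert_of_mem hy)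
  have hvi : v⁻¹ ∈ A := hA _ (Finset.mem_insert_self _ _)
  refine ⟨ψ.comp (Subalgebra.inclusion hle : Algebra.adjoin R (s : Set Ω) →ₐ[R] A).toRingHom, ?_, ?_⟩
  · intro a
    rw [← hψ a]
    rfl
  · intro b hb h0
    have h1 : (Subalgebra.inclusion hle b) * (⟨v⁻¹, hvi⟩ : A) = 1 := by
      refine Subtype.ext ?_
      change (b : Ω) * v⁻¹ = 1
      rw [hb, mul_inv_cancel₀ hv]
    have h2 := congrArg ψ h1
    rw [map_mul, map_one] at h2
    have h3 : ψ (Subalgebra.inclusion hle b) = 0 := h0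
    rw [h3, zero_mul] at h2
    exact zero_ne_one h2

end Pool.Agent.X319.GN
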