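import Mathlib

/-!
# Extension of homomorphisms to algebraic elements, away from the zeros of one element

If `R ⊆ L` is a domain in a field and `s_1, ..., s_m ∈ L` are algebraic over `R`, there is `Δ ≠ 0` in `R`
such that every homomorphism `φ` of `R` into an algebraically closed field with `φ (Δ) ≠ 0` extends
to a subring containing `s_1, ..., s_m`.
-/

set_option autoImplicit false

namespace Pool.Agent.X319.GN

open Polynomial

universe u v w

noncomputable section

section

variable {R : Type u} {L : Type v} [CommRing R] [IsDomain R] [Field L] [Algebra R L]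

/-- the extension property -/
def Good (A : Subalgebra R L) : Prop := ∃ Δ : R, Δ ≠ 0 ∧
  ∀ (K : Type w) [Field K] [IsAlgClosed K] (φ : R →+* K), φ Δ ≠ 0 →
    ∃ ψ : A →+* K, ∀ r, ψ (algebraMap R A r) = φ r

lemma good_bot (hinj : Function.Injective (algebraMap R L)) :
    Good.{u, v, w} (⊥ : Subalgebra R L) := by
  refine ⟨1, one_ne_zero, ?_⟩
  intro K _ _ φ _
  refine ⟨φ.comp ((Algebra.botEquivOfInjective hinj : (⊥ : Subalgebra R L) ≃ₐ[R] R) :
    (⊥ : Subalgebra R L) →+* R), ?_⟩
  intro r
  simp

lemma good_step {A : Subalgebra R L} (hA : Good.{u, v, w} A)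
    (halg : ∀ a ∈ A, IsAlgebraic R a) {s : L} (hs : IsAlgebraic R s)
    (hinj : Function.Injective (algebraMap R L)) :
    ∃ A' : Subalgebra R L, A ≤ A' ∧ s ∈ A' ∧ Good.{u, v, w} A' ∧ ∀ a ∈ A', IsAlgebraic R a := by
  classical
  have hAinj : Function.Injective (algebraMap A L) := Subtype.val_injective
  -- a polynomial of minimal degree over `A` which vanishes at `s`
  have hex : ∃ n : ℕ, ∃ f : A[X], f ≠ 0 ∧ aeval s f = 0 ∧ f.natDegree = n := by
    obtain ⟨g, hg0, hg⟩ := hs
    have hRA : Function.Injective (algebraMap R A) := fun a b hab =>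
      hinj (congrArg (algebraMap A L) hab)
    refine ⟨_, g.map (algebraMap R A), ?_, ?_, rfl⟩
    · exact (Polynomial.map_ne_zero_iff hRA).2 hg0
    · rw [aeval_map_algebraMap]; exact hg
  obtain ⟨f, hf0, hfs, hfn⟩ := Nat.find_spec hex
  have hmin : ∀ g : A[X], g ≠ 0 → aeval s g = 0 → f.natDegree ≤ g.natDegree := by
    intro g hg hgs
    rw [hfn]
    exact Nat.find_min' hex ⟨g, hg, hgs, rfl⟩
  set c := f.leadingCoeff with hc
  have hc0 : c ≠ 0 := leadingCoeff_ne_zero.2 hf0
  -- an element of `R` divisible by `c`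
  have hcalg : IsAlgebraic R c := by
    have h1 : IsAlgebraic R (algebraMap A L c) := halg _ c.2
    exact (isAlgebraic_algebraMap_iff hAinj).1 h1
  obtain ⟨r₀, hr₀, hdvd⟩ := hcalg.exists_nonzero_dvd (mem_nonZeroDivisors_of_ne_zero hc0)
  obtain ⟨Δ, hΔ, hext⟩ := hA
  -- the new ring
  let A' : Subalgebra R L := ((aeval s : A[X] →ₐ[A] L).range).restrictScalars R
  have hA'mem : ∀ a, a ∈ A' ↔ ∃ g : A[X], aeval s g = a := fun a => Iff.rfl
  refine ⟨A', ?_, ?_, ?_, ?_⟩
  · intro a ha
    rw [hA'mem]
    exact ⟨C ⟨a, ha⟩, by rw [aeval_C]; rfl⟩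
  · rw [hA'mem]
    exact ⟨X, aeval_X s⟩
  · refine ⟨Δ * r₀, mul_ne_zero hΔ hr₀, ?_⟩
    intro K _ _ φ hφ
    rw [map_mul] at hφ
    obtain ⟨ψ, hψ⟩ := hext K φ (left_ne_zero_of_mul hφ)
    have hψc : ψ c ≠ 0 := by
      intro h
      obtain ⟨e, he⟩ := hdvd
      have h1 := hψ r₀
      rw [he, map_mul, h, zero_mul] at h1
      exact (right_ne_zero_of_mul hφ) h1.symm
    -- a root
    have hfdeg : (f.map ψ).natDegree = f.natDegree := natDegree_map_of_leadingCoeff_ne_zero _ hψc
    have hf1 : f.natDegree ≠ 0 := by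
      intro h
      rw [natDegree_eq_zero] at h
      obtain ⟨b, hb⟩ := h
      rw [← hb, aeval_C] at hfs
      apply hf0
      rw [← hb, hAinj (hfs.trans (map_zero _).symm), C_0]
    obtain ⟨ρ, hρ⟩ := IsAlgClosed.exists_root (f.map ψ) (by
      intro h
      apply hf1
      rw [← hfdeg]
      exact natDegree_eq_of_degree_eq_some h)
    have hρ' : eval₂ ψ ρ f = 0 := by rw [← eval_map]; exact hρ
    -- polynomials vanishing at `s` vanish at `ρ`
    have key : ∀ n : ℕ, ∀ g : A[X], g.natDegree ≤ n → aeval s g = 0 → eval₂ ψ ρ g = 0 := by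
      intro n
      induction n using Nat.strong_induction_on with
      | _ n ih =>
        intro g hgn hgs
        by_cases hg0 : g = 0
        · rw [hg0, eval₂_zero]
        have hle := hmin g hg0 hgs
        set h := C c * g - C g.leadingCoeff * X ^ (g.natDegree - f.natDegree) * f with hh
        have hhs : aeval s h = 0 := by
          rw [hh, map_sub, map_mul, map_mul, hgs, hfs, mul_zero, mul_zero, sub_zero]
        have hheval : eval₂ ψ ρ h = ψ c * eval₂ ψ ρ g := by
          rw [hh, eval₂_sub, eval₂_mul, eval₂_mul, hρ', mul_zero, sub_zero, eval₂_C]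
        have hzero : eval₂ ψ ρ h = 0 := by
          by_cases hh0 : h = 0
          · rw [hh0, eval₂_zero]
          have hdeg : h.natDegree < g.natDegree := by
            have hg1 : 0 < g.natDegree := lt_of_lt_of_le (Nat.pos_of_ne_zero hf1) hle
            have hcoef : h.coeff g.natDegree = 0 := by
              rw [hh, coeff_sub, coeff_C_mul, mul_assoc, coeff_C_mul, coeff_X_pow_mul', if_pos
                (Nat.sub_le _ _), Nat.sub_sub_self hle]
              change c * g.leadingCoeff - g.leadingCoeff * c = 0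
              ring
            have hle2 : h.natDegree ≤ g.natDegree := by
              refine (natDegree_sub_le _ _).trans (max_le (natDegree_C_mul_le _ _) ?_)
              refine natDegree_mul_le.trans ?_
              have := natDegree_C_mul_X_pow_le g.leadingCoeff (g.natDegree - f.natDegree)
              omega
            refine lt_of_le_of_ne hle2 ?_
            intro he
            apply hh0
            rw [← leadingCoeff_eq_zero, leadingCoeff, he, hcoef]
          exact ih h.natDegree (lt_of_lt_of_le hdeg hgn) h le_rfl hhs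
        rw [hheval] at hzero
        exact (mul_eq_zero.1 hzero).resolve_left hψc
    -- the extension
    let π : A[X] →+* A' :=
      { toFun := fun g => ⟨aeval s g, g, rfl⟩
        map_one' := Subtype.ext (map_one _)
        map_mul' := fun a b => Subtype.ext (map_mul _ a b)
        map_zero' := Subtype.ext (map_zero _)
        map_add' := fun a b => Subtype.ext (map_add _ a b) }
    have hπ : Function.Surjective π := by
      rintro ⟨a, g, hg⟩
      exact ⟨g, Subtype.ext hg⟩
    have hker : RingHom.ker π ≤ RingHom.ker (eval₂RingHom ψ ρ) := by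
      intro g hg
      rw [RingHom.mem_ker] at hg ⊢
      have hg' : aeval s g = 0 := congrArg Subtype.val hg
      exact key _ g le_rfl hg'
    refine ⟨RingHom.liftOfSurjective π hπ ⟨eval₂RingHom ψ ρ, hker⟩, ?_⟩
    intro r
    have h1 : algebraMap R A' r = π (C (algebraMap R A r)) := by
      refine Subtype.ext ?_
      change algebraMap R L r = aeval s (C (algebraMap R A r))
      rw [aeval_C]; rfl
    rw [h1]
    have h2 := RingHom.congr_fun (RingHom.liftOfRightInverse_comp π (Function.surjInv hπ)
      (Function.rightInverse_surjInv hπ) ⟨eval₂RingHom ψ ρ, hker⟩) (C (algebraMap R A r))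
    refine h2.trans ?_
    simp [hψ]
  · intro a ha
    rw [hA'mem] at ha
    obtain ⟨g, rfl⟩ := ha
    have : aeval s g ∈ Subalgebra.algebraicClosure R L := by
      rw [aeval_eq_sum_range]
      refine Subalgebra.sum_mem _ fun i _ => ?_
      rw [Algebra.smul_def]
      exact Subalgebra.mul_mem _ (halg _ (g.coeff i).2) (Subalgebra.pow_mem _ hs _)
    exact this

/-- **extension of homomorphisms** -/
theorem ext (hinj : Function.Injective (algebraMap R L)) (S : Finset L)
    (hS : ∀ s ∈ S, IsAlgebraic R s) :
    ∃ A : Subalgebra R L, (∀ s ∈ S, s ∈ A) ∧ Good.{u, v, w} A := by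
  classical
  suffices h : ∃ A : Subalgebra R L, (∀ s ∈ S, s ∈ A) ∧ Good.{u, v, w} A ∧
      ∀ a ∈ A, IsAlgebraic R a by
    obtain ⟨A, h1, h2, -⟩ := h; exact ⟨A, h1, h2⟩
  induction S using Finset.induction_on with
  | empty =>
    refine ⟨⊥, by simp, good_bot hinj, ?_⟩
    intro a ha
    obtain ⟨r, rfl⟩ := Algebra.mem_bot.1 ha
    exact isAlgebraic_algebraMap r
  | insert s S hs ih =>
    obtain ⟨A, h1, h2, h3⟩ := ih fun t ht => hS t (Finset.mem_insert_of_mem ht)
    obtain ⟨A', g1, g2, g3, g4⟩ := good_step h2 h3 (hS s (Finset.mem_insert_self _ _)) hinj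
    refine ⟨A', ?_, g3, g4⟩
    intro t ht
    rcases Finset.mem_insert.1 ht with rfl | ht
    · exact g2
    · exact g1 (h1 t ht)

end

end

end Pool.Agent.X319.GN
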