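import Pool.Agent.X319.GN.DIG

/-!
# The residue field computation of `S_RIG`
-/

set_option autoImplicit false

namespace Pool.Agent.X319.GN

open Finset Polynomial
open Pool.Agent.X328.GN (Ix nu de)

universe u

noncomputable section

variable {F : Type u} [Field F]

/-- `nu ^ δ` (for `τ = δ ∘ t`) -/
def nuD (d : ℕ) (τ : Ix d → F) : F[X] := ∑ i : Fin (d - 1), C (τ (Sum.inl i)) * X ^ (i.1 + 1)

/-- `de ^ δ` (for `τ = δ ∘ t`) -/
def deD (d : ℕ) (τ : Ix d → F) : F[X] :=
  C (∑ i : Fin (d - 1), τ (Sum.inl i) - ∑ i : Fin (d - 1), τ (Sum.inr i)) +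
    ∑ i : Fin (d - 1), C (τ (Sum.inr i)) * X ^ (i.1 + 1)

/-- the residue of `f ^ δ` (as a polynomial) -/
def gP (d : ℕ) (τ : Ix d → F) : F[X] := nuD d τ - X ^ d * deD d τ

lemma euler (d : ℕ) (τ : Ix d → F) (z : F) :
    z * (derivative (gP d τ)).eval z - d * (gP d τ).eval z =
      ∑ i : Fin (d - 1), τ (Sum.inl i) * ((i.1 : F) + 1 - d) * z ^ (i.1 + 1) -
        z ^ d * ∑ i : Fin (d - 1), τ (Sum.inr i) * ((i.1 : F) + 1) * z ^ (i.1 + 1) := by
  have h1 : z * (derivative (nuD d τ)).eval z - d * (nuD d τ).eval z =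
      ∑ i : Fin (d - 1), τ (Sum.inl i) * ((i.1 : F) + 1 - d) * z ^ (i.1 + 1) := by
    simp only [nuD, derivative_sum, eval_finsetSum, derivative_C_mul, derivative_X_pow, eval_mul,
      eval_C, eval_pow, eval_X, Finset.mul_sum, ← Finset.sum_sub_distrib]
    refine Finset.sum_congr rfl fun i _ => ?_
    simp only [Nat.add_sub_cancel, Nat.cast_add, Nat.cast_one, pow_succ]
    ring
  have h2 : z * (derivative (deD d τ)).eval z =
      ∑ i : Fin (d - 1), τ (Sum.inr i) * ((i.1 : F) + 1) * z ^ (i.1 + 1) := by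
    simp only [deD, derivative_add, derivative_C, zero_add, derivative_sum, eval_finsetSum,
      derivative_C_mul, derivative_X_pow, eval_mul, eval_C, eval_pow, eval_X, Finset.mul_sum]
    refine Finset.sum_congr rfl fun i _ => ?_
    simp only [Nat.add_sub_cancel, Nat.cast_add, Nat.cast_one, pow_succ]
    ring
  rw [← h1, ← h2, gP]
  simp only [derivative_sub, derivative_mul, derivative_X_pow, eval_sub, eval_add, eval_mul,
    eval_C, eval_pow, eval_X]
  rcases Nat.eq_zero_or_pos d with h0 | h0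
  · subst h0; simp; ring
  · obtain ⟨e, rfl⟩ : ∃ e, d = e + 1 := ⟨d - 1, by omega⟩
    simp only [Nat.add_sub_cancel, Nat.cast_add, Nat.cast_one, pow_succ]
    ring

/-- **the residue field computation** -/
theorem res [CharZero F] (d : ℕ) (hd : 2 ≤ d) (hs : (X ^ (d ^ 3) - X : F[X]).Splits)
    (τ : Ix d → F)
    (H : ∀ ζ : F, ζ ^ (d ^ 3 - 1) = 1 → ∃ y : ℕ → F, y 3 = y 0 ∧
      (∀ i < 3, y (i + 1) = d * (ζ ^ d ^ i) ^ (d - 1) * y i + (gP d τ).eval (ζ ^ d ^ i)) ∧
      ∑ i ∈ range 3, (d * (d - 1) * (ζ ^ d ^ i) ^ (d - 2) * y i +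
        (derivative (gP d τ)).eval (ζ ^ d ^ i)) / (d * (ζ ^ d ^ i) ^ (d - 1)) = 0) :
    ∀ i, τ i = 0 := by
  have hN0 : d ^ 3 - 1 ≠ 0 := by
    have := (pow_lt d hd 0 0 (by omega) (by omega)).2
    omega
  have hd0 : (d : F) ≠ 0 := by
    have : d ≠ 0 := by omega
    exact_mod_cast this
  have key := t_DIG.{u} F d hd hs (fun j => -((j.1 : F) + 1) * τ (Sum.inr j))
    (fun j => -((j.1 : F) + 1) * τ (Sum.inl (Fin.rev j))) (by
      intro ζ hζ
      have hz0 : ζ ≠ 0 := by
        rintro rfl
        rw [zero_pow hN0] at hζ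
        exact zero_ne_one hζ
      obtain ⟨y, hy3, hy, hsum⟩ := H ζ hζ
      set z : ℕ → F := fun i => ζ ^ d ^ i with hz
      have hzne : ∀ i, z i ≠ 0 := fun i => pow_ne_zero _ hz0
      have hzs : ∀ i, z (i + 1) = z i ^ d := by
        intro i
        simp only [hz]
        rw [← pow_mul, pow_succ]
      have hz3 : z 3 = z 0 := by
        simp only [hz]
        have h1 : d ^ 3 = (d ^ 3 - 1) + 1 := by
          have : 0 < d ^ 3 := Nat.pos_of_ne_zero (pow_ne_zero _ (by omega))
          omega
        rw [h1, pow_succ, hζ, one_mul, pow_zero, pow_one]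
      -- the terms
      have hterm : ∀ i, ∑ j : Fin (d - 1), -((j.1 : F) + 1) * τ (Sum.inr j) * z i ^ (j.1 + 1) +
          ∑ j : Fin (d - 1), -((j.1 : F) + 1) * τ (Sum.inl (Fin.rev j)) * (z i ^ (j.1 + 1))⁻¹ =
          (z i * (derivative (gP d τ)).eval (z i) - d * (gP d τ).eval (z i)) / z i ^ d := by
        intro i
        rw [euler, sub_div, mul_comm (z i ^ d), mul_div_assoc, div_self (pow_ne_zero _ (hzne i)),
          mul_one, add_comm, sub_eq_add_neg, ← Finset.sum_neg_distrib]
        congr 1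
        · rw [Finset.sum_div, ← Equiv.sum_comp (Fin.revPerm (n := d - 1))]
          refine Finset.sum_congr rfl fun j _ => ?_
          rw [Fin.revPerm_apply, Fin.rev_rev]
          have h1 : (Fin.rev j).1 + 1 + (j.1 + 1) = d := by
            rw [Fin.val_rev]; have := j.2; omega
          have h2 : z i ^ d = z i ^ ((Fin.rev j).1 + 1) * z i ^ (j.1 + 1) := by
            rw [← pow_add, h1]
          have h3 : ((j.1 : F) + 1 - d) = -(((Fin.rev j).1 : F) + 1) := by
            have : (((Fin.rev j).1 + 1 + (j.1 + 1) : ℕ) : F) = d := by rw [h1]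
            push_cast at this
            rw [← this]; ring
          rw [h2, h3]
          field_simp [hzne i]
        · refine Finset.sum_congr rfl fun j _ => ?_
          ring
      have h5 : ∀ i < 3, (d * (d - 1) * z i ^ (d - 2) * y i + (derivative (gP d τ)).eval (z i)) /
          (d * z i ^ (d - 1)) = (y (i + 1) / z (i + 1) - y i / z i) +
            (z i * (derivative (gP d τ)).eval (z i) - d * (gP d τ).eval (z i)) / z i ^ d / d := by
        intro i hi
        rw [hzs, hy i hi]
        have h6 : z i ^ d = z i ^ (d - 2) * z i ^ 2 := by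
          rw [← pow_add]; congr 1; omega
        have h7 : z i ^ (d - 1) = z i ^ (d - 2) * z i := by
          rw [← pow_succ]; congr 1; omega
        change _ = ((d * z i ^ (d - 1) * y i + (gP d τ).eval (z i)) / _ - _) + _
        rw [h6, h7]
        have h8 := pow_ne_zero (d - 2) (hzne i)
        have h9 := hzne i
        field_simp
        ring
      have h10 : ∑ i ∈ range 3, ((y (i + 1) / z (i + 1) - y i / z i) +
            (z i * (derivative (gP d τ)).eval (z i) - d * (gP d τ).eval (z i)) / z i ^ d / d) = 0 := by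
        rw [← hsum]
        refine Finset.sum_congr rfl fun i hi => ?_
        exact (h5 i (Finset.mem_range.1 hi)).symm
      rw [Finset.sum_add_distrib, Finset.sum_range_sub (fun i => y i / z i), hy3, hz3, sub_self,
        zero_add, ← Finset.sum_div, div_eq_zero_iff] at h10
      have h11 := h10.resolve_right hd0
      rw [← h11]
      exact Finset.sum_congr rfl fun i _ => hterm i)
  intro i
  have hpos : ∀ j : ℕ, -((j : F) + 1) ≠ 0 := by
    intro j
    rw [neg_ne_zero]
    exact_mod_cast Nat.succ_ne_zero j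
  rcases i with j | j
  · have h1 := key.2 (Fin.rev j)
    rw [Fin.rev_rev] at h1
    exact (mul_eq_zero.1 h1).resolve_left (hpos _)
  · exact (mul_eq_zero.1 (key.1 j)).resolve_left (hpos _)

end

end Pool.Agent.X319.GN
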